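import Mathlib
import Pool.Agent.H29.Takagi

set_option autoImplicit false

namespace Pool.Agent.Results.MP_4a5b11_an.Level

noncomputable def phi (x : ℝ) : ℝ := Metric.infDist x (Set.range (Int.cast : ℤ → ℝ))

noncomputable def takagi (x : ℝ) : ℝ := ∑' n : ℕ, phi (2 ^ n * x) / 2 ^ n

def levelSet (y : ℝ) : Set ℝ := {x | x ∈ Set.Icc (0 : ℝ) 1 ∧ takagi x = y}

theorem result : (49 / 2050 : ℝ) ∈ Set.Icc (0 : ℝ) (2 / 3) ∧
    (levelSet (49 / 2050)).Countable ∧ (levelSet (49 / 2050)).Infinite ∧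
    ∀ m k : ℕ, k ≤ 2 ^ m → takagi ((k : ℝ) / 2 ^ m) ≠ 49 / 2050 := by
  have h1 : takagi = Pool.Agent.H29.Takagi.T := by
    funext x
    simp only [takagi, phi, Pool.Agent.H29.Takagi.ph_eq, Pool.Agent.H29.Takagi.T]
  have h2 : levelSet (49 / 2050) = Pool.Agent.H29.Takagi.S 0 (49 / 2050) := by
    ext x
    simp [levelSet, Pool.Agent.H29.Takagi.S, h1, and_assoc]
  rw [h2, h1]
  exact ⟨⟨by norm_num, by norm_num⟩, Pool.Agent.H29.Takagi.main.1, Pool.Agent.H29.Takagi.main.2,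
    fun m k _ => Pool.Agent.H29.Takagi.not_dyad m k⟩

end Pool.Agent.Results.MP_4a5b11_an.Level
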